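import Pool.Agent.H.MP_bf2f06_lc.Main

open Finset Filter Topology

namespace Pool.Agent.H.MP_bf2f06_lc

def es : Fin 12 → Fin 9 := ![0, 0, 1, 3, 3, 4, 0, 1, 2, 3, 4, 5]
def et : Fin 12 → Fin 9 := ![1, 2, 2, 4, 5, 5, 6, 7, 8, 6, 7, 8]
def ew : Fin 12 → ℕ := ![1, 1, 1, 1, 1, 1, 2, 2, 2, 2, 2, 2]

def adjB (a b : Fin 9) : Bool :=
  (List.finRange 12).any fun i => (es i == a && et i == b) || (es i == b && et i == a)

/-- Two triangles joined by three paths of length two. -/
def G9 : SimpleGraph (Fin 9) where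
  Adj a b := adjB a b = true
  symm := ⟨by decide +kernel⟩
  loopless := ⟨by decide +kernel⟩

instance : DecidableRel G9.Adj := fun a b => inferInstanceAs (Decidable (adjB a b = true))

lemma G9_conn : G9.Connected := by
  refine ⟨fun u v => ?_⟩
  revert u v
  decide +kernel

lemma G9_cut : ∀ S : Finset (Fin 9), 0 ∈ S → S ≠ univ →
    4 ≤ ∑ e with (es e ∈ S ↔ et e ∉ S), ew e := by
  decide +kernel

lemma G9_lim : Tendsto (fun n : ℕ => (cost G9 n : ℝ) / n) atTop (𝓝 (9 / 2)) ∧
    Tendsto (fun n : ℕ => (costAll G9 n : ℝ) / n) atTop (𝓝 (9 / 2)) := by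
  refine tendsto_of G9_conn (fun ε hε => ?_) (fun n N P hP => ?_)
  · have := upper (G := G9) es et (by decide +kernel) (fun e => (ew e : ℝ) / 4)
      (fun e => by positivity) 0 (fun S h1 h2 => by
        have h : ((4 : ℕ) : ℝ) ≤ (∑ e with (es e ∈ S ↔ et e ∉ S), ew e : ℕ) := by
          exact_mod_cast G9_cut S h1 h2
        push_cast at h
        rw [← sum_div]
        linarith) hε
    have e : ∑ e, (ew e : ℝ) / 4 = 9 / 2 := by
      have h : ∑ e, ew e = 18 := by decide +kernel
      rw [← sum_div, ← Nat.cast_sum, h]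
      norm_num
    rwa [e] at this
  · have := P.packing_bound hP (fun S => ∑ v, if S = {v} then 1 / 2 else 0)
      (fun S => sum_nonneg fun v _ => by split_ifs <;> norm_num)
      (sum_eq_zero fun v _ => if_neg (singleton_ne_empty v).symm)
      (sum_eq_zero fun v _ => if_neg (by revert v; decide +kernel)) (fun a b _ => by
        rw [sum_comm]
        simp only [sum_ite_eq', mem_filter, mem_univ, true_and, mem_singleton]
        rw [← sum_filter, sum_const, nsmul_eq_mul]
        have : (univ.filter fun v : Fin 9 => (a = v ↔ ¬ b = v)).card ≤ 2 := by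
          revert a b
          decide +kernel
        have : ((univ.filter fun v : Fin 9 => (a = v ↔ ¬ b = v)).card : ℝ) ≤ 2 := by
          exact_mod_cast this
        linarith)
    rw [sum_comm] at this
    simp only [sum_ite_eq', mem_univ, if_true, sum_const, card_univ, Fintype.card_fin,
      nsmul_eq_mul] at this
    push_cast at this
    linarith

set_option synthInstance.maxSize 5000 in
lemma G9_dfs : ∀ a b : Fin 9, G9.Adj a b → ∀ c, G9.Adj b c → c ∉ [a] →
    ∀ d, G9.Adj c d → d ∉ [a, b] → ∀ e, G9.Adj d e → e ∉ [a, b, c] →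
    ∀ f, G9.Adj e f → f ∉ [a, b, c, d] → ∀ g, G9.Adj f g → g ∉ [a, b, c, d, e] →
    ∀ h, G9.Adj g h → h ∉ [a, b, c, d, e, f] → ∀ i, G9.Adj h i → i ∉ [a, b, c, d, e, f, g] →
    ¬ G9.Adj i a := by
  decide +kernel

lemma G9_nonham : ¬ G9.IsHamiltonian := by
  intro h
  obtain ⟨a, p, hp⟩ := h (by simp)
  have hl : p.length = 9 := by simpa using hp.length_eq
  have hadj : ∀ i, i < 9 → G9.Adj (p.getVert i) (p.getVert (i + 1)) :=
    fun i hi => p.adj_getVert_succ (by omega)
  have hinj : ∀ i j, 1 ≤ i → i ≤ 9 → 1 ≤ j → j ≤ 9 → i ≠ j → p.getVert i ≠ p.getVert j :=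
    fun i j h1 h2 h3 h4 h5 h6 =>
      h5 (hp.isCycle.getVert_injOn ⟨h1, by omega⟩ ⟨h3, by omega⟩ h6)
  have h9 : p.getVert 9 = p.getVert 0 := by
    have := p.getVert_length
    rw [hl] at this
    rw [this, p.getVert_zero]
  refine G9_dfs _ _ (hadj 1 (by norm_num)) _ (hadj 2 (by norm_num)) ?_ _ (hadj 3 (by norm_num)) ?_
    _ (hadj 4 (by norm_num)) ?_ _ (hadj 5 (by norm_num)) ?_ _ (hadj 6 (by norm_num)) ?_
    _ (hadj 7 (by norm_num)) ?_ _ (hadj 8 (by norm_num)) ?_ (h9 ▸ hadj 0 (by norm_num))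
  all_goals
    simp only [List.mem_cons, List.not_mem_nil, or_false, not_or]
    repeat' apply And.intro
    all_goals exact hinj _ _ (by norm_num) (by norm_num) (by norm_num) (by norm_num) (by norm_num)

end Pool.Agent.H.MP_bf2f06_lc
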