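import Mathlib

open Finset

set_option linter.unusedSectionVars false

namespace Pool.Agent.H.MP_bf2f06_lc

variable {N : Type} [Fintype N] [DecidableEq N] {d : ℕ}

def En (c : N → N → ℚ) (w : N → ℚ) : ℚ := ∑ a, ∑ b, c a b * (w a - w b) ^ 2

def Harm (c : N → N → ℚ) (p : Fin d → N) (w : N → ℚ) : Prop :=
  ∀ a, (∀ i, p i ≠ a) → ∑ b, c a b * (w a - w b) = 0

lemma En_nonneg {c : N → N → ℚ} (hc : ∀ a b, 0 ≤ c a b) (w : N → ℚ) : 0 ≤ En c w :=
  sum_nonneg fun a _ => sum_nonneg fun b _ => mul_nonneg (hc a b) (sq_nonneg _)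

lemma En_term {c : N → N → ℚ} (hc : ∀ a b, 0 ≤ c a b) (w : N → ℚ) (a b : N) :
    c a b * (w a - w b) ^ 2 ≤ En c w :=
  (single_le_sum (f := fun b => c a b * (w a - w b) ^ 2)
    (fun b _ => mul_nonneg (hc a b) (sq_nonneg _)) (mem_univ b)).trans
    (single_le_sum (f := fun a => ∑ b, c a b * (w a - w b) ^ 2)
      (fun a _ => sum_nonneg fun b _ => mul_nonneg (hc a b) (sq_nonneg _)) (mem_univ a))

lemma En_add {c : N → N → ℚ} (hs : ∀ a b, c a b = c b a) {p : Fin d → N} {w u : N → ℚ}
    (hw : Harm c p w) (hu : ∀ i, u (p i) = 0) :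
    En c (fun a => w a + u a) = En c w + En c u := by
  have h1 : ∑ a, ∑ b, c a b * (u a * (w a - w b)) = 0 := by
    refine sum_eq_zero fun a _ => ?_
    by_cases ha : ∀ i, p i ≠ a
    · have := hw a ha
      calc ∑ b, c a b * (u a * (w a - w b)) = u a * ∑ b, c a b * (w a - w b) := by
            rw [mul_sum]
            exact sum_congr rfl fun b _ => by ring
        _ = 0 := by rw [this, mul_zero]
    · push Not at ha
      obtain ⟨i, rfl⟩ := ha
      simp [hu]
  have h2 : ∑ a, ∑ b, c a b * (u b * (w b - w a)) = 0 := by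
    rw [sum_comm, ← h1]
    exact sum_congr rfl fun a _ => sum_congr rfl fun b _ => by rw [hs]
  have h3 : En c (fun a => w a + u a) = En c w + En c u +
      2 * (∑ a, ∑ b, c a b * (u a * (w a - w b)) + ∑ a, ∑ b, c a b * (u b * (w b - w a))) := by
    simp only [En, mul_sum, ← sum_add_distrib]
    exact sum_congr rfl fun a _ => sum_congr rfl fun b _ => by ring
  rw [h3, h1, h2]
  ring

lemma poincare {c : N → N → ℚ} (hc : ∀ a b, 0 ≤ c a b) {r : N → N → Prop}
    (hr : ∀ a b, r a b → 1 ≤ c a b) {a b : N} (h : Relation.ReflTransGen r a b) :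
    ∃ K : ℚ, 0 ≤ K ∧ ∀ w : N → ℚ, (w a - w b) ^ 2 ≤ K * En c w := by
  induction h with
  | refl => exact ⟨0, le_rfl, fun w => by simp⟩
  | @tail x y _ hxy ih =>
    obtain ⟨K, hK, h⟩ := ih
    refine ⟨2 * K + 2, by positivity, fun w => ?_⟩
    have h1 := En_term hc w x y
    have h2 := mul_le_mul_of_nonneg_right (hr x y hxy) (sq_nonneg (w x - w y))
    nlinarith [h w, sq_nonneg (w a - 2 * w x + w y)]

structure Wt (R : N → N → Prop) (c : N → N → ℚ) : Prop where
  symm : ∀ a b, c a b = c b a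
  nonneg : ∀ a b, 0 ≤ c a b
  one : ∀ a b, R a b → 1 ≤ c a b
  supp : ∀ a b, ¬ R a b → c a b = 0

lemma zero_of_En {R : N → N → Prop} {c : N → N → ℚ} (hc : Wt R c) {p : Fin d → N}
    (hconn : ∀ a, ∃ i, Relation.ReflTransGen R (p i) a) {u : N → ℚ} (hu : ∀ i, u (p i) = 0)
    (h : En c u ≤ 0) : u = 0 := by
  funext a
  obtain ⟨i, hi⟩ := hconn a
  obtain ⟨K, hK, h2⟩ := poincare hc.nonneg hc.one hi
  have h3 := h2 u
  rw [hu, zero_sub, neg_sq] at h3
  have h4 : K * En c u ≤ 0 := mul_nonpos_of_nonneg_of_nonpos hK h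
  exact pow_eq_zero_iff (two_ne_zero) |>.1 (le_antisymm (h3.trans h4) (sq_nonneg _))

lemma harm_zero {R : N → N → Prop} {c : N → N → ℚ} (hc : Wt R c) {p : Fin d → N}
    (hconn : ∀ a, ∃ i, Relation.ReflTransGen R (p i) a) {u : N → ℚ} (hh : Harm c p u)
    (hu : ∀ i, u (p i) = 0) : u = 0 := by
  refine zero_of_En hc hconn hu ?_
  have h1 := En_add hc.symm hh (u := fun a => -u a) (fun i => by simp [hu])
  have h2 : En c (fun a => -u a) = En c u := by
    simp only [En]
    exact sum_congr rfl fun a _ => sum_congr rfl fun b _ => by ring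
  have h3 : En c (fun a => u a + -u a) = 0 := by simp [En]
  linarith

open Classical in
noncomputable def Tm (c : N → N → ℚ) (p b : Fin d → N) (k : ℚ) : (N → ℚ) →ₗ[ℚ] (N → ℚ) where
  toFun w a := if h : ∃ i, p i = a then k * w (b h.choose) else ∑ x, c a x * (w a - w x)
  map_add' w w' := by
    funext a
    simp only [Pi.add_apply]
    split_ifs
    · ring
    · rw [← sum_add_distrib]
      exact sum_congr rfl fun x _ => by ring
  map_smul' s w := by
    funext a
    simp only [Pi.smul_apply, smul_eq_mul, RingHom.id_apply]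
    split_ifs
    · ring
    · rw [mul_sum]
      exact sum_congr rfl fun x _ => by ring

def Good (c : N → N → ℚ) (p b : Fin d → N) : Prop :=
  ∀ w, Harm c p w → (∀ i, w (b i) = 0) → w = 0

lemma Tm_pin (c : N → N → ℚ) {p : Fin d → N} (hp : Function.Injective p) (b : Fin d → N) (k : ℚ)
    (w : N → ℚ) (i : Fin d) : Tm c p b k w (p i) = k * w (b i) := by
  have h : ∃ j, p j = p i := ⟨i, rfl⟩
  simp only [Tm, LinearMap.coe_mk, AddHom.coe_mk, dif_pos h]
  rw [hp h.choose_spec]

lemma Tm_free (c : N → N → ℚ) (p b : Fin d → N) (k : ℚ) (w : N → ℚ) (a : N)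
    (ha : ∀ i, p i ≠ a) : Tm c p b k w a = ∑ x, c a x * (w a - w x) := by
  have h : ¬ ∃ j, p j = a := fun ⟨j, hj⟩ => ha j hj
  simp only [Tm, LinearMap.coe_mk, AddHom.coe_mk, dif_neg h]

lemma good_iff (c : N → N → ℚ) {p : Fin d → N} (hp : Function.Injective p) (b : Fin d → N) :
    Good c p b ↔ Function.Injective (Tm c p b 1) := by
  rw [injective_iff_map_eq_zero]
  refine forall_congr' fun w => ⟨fun h h0 => h (fun a ha => ?_) (fun i => ?_), fun h h1 h2 => h ?_⟩
  · rw [← Tm_free c p b 1 w a ha, h0]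
    rfl
  · have := congrFun h0 (p i)
    rw [Tm_pin c hp] at this
    simpa using this
  · funext a
    by_cases ha : ∀ i, p i ≠ a
    · rw [Tm_free c p b 1 w a ha]
      exact h1 a ha
    · push Not at ha
      obtain ⟨i, rfl⟩ := ha
      rw [Tm_pin c hp, h2]
      simp

lemma fin_exc (A B : (N → ℚ) →ₗ[ℚ] (N → ℚ)) (hA : Function.Injective A) :
    {t : ℚ | ¬ Function.Injective (A + t • B)}.Finite := by
  let e := LinearEquiv.ofInjectiveEndo A hA
  let C : Module.End ℚ (N → ℚ) := e.symm.toLinearMap ∘ₗ B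
  refine ((Module.End.finite_hasEigenvalue C).image fun μ => -μ⁻¹).subset fun t ht => ?_
  rw [Set.mem_ofPred_eq, injective_iff_map_eq_zero] at ht
  push Not at ht
  obtain ⟨w, hw, hw0⟩ := ht
  have h1 : A w + t • B w = 0 := hw
  have h2 : w + t • C w = 0 := by
    apply e.injective
    simp only [C, map_add, map_smul, LinearMap.comp_apply, LinearEquiv.coe_coe,
      LinearEquiv.apply_symm_apply, map_zero]
    exact h1
  have ht0 : t ≠ 0 := by
    rintro rfl
    exact hw0 (by simpa using h2)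
  refine ⟨-t⁻¹, Module.End.hasEigenvalue_of_hasEigenvector (x := w) ⟨?_, hw0⟩, by simp⟩
  rw [Module.End.mem_eigenspace_iff]
  have : t • C w = -w := eq_neg_of_add_eq_zero_right h2
  calc C w = t⁻¹ • (t • C w) := by rw [smul_smul, inv_mul_cancel₀ ht0, one_smul]
    _ = _ := by rw [this]; simp

lemma large_good {R : N → N → Prop} {c : N → N → ℚ} (hc : Wt R c) (hR : ∀ a b, R a b → R b a)
    {p b : Fin d → N} (hconn : ∀ a, ∃ i, Relation.ReflTransGen R (p i) a)
    (C : Fin d → N → Prop) (hC : ∀ i j a, C i a → C j a → i = j) (hp : ∀ i, C i (p i))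
    (hb : ∀ i, Relation.ReflTransGen (fun x y => R x y ∧ C i x ∧ C i y) (p i) (b i)) :
    ∃ c' : N → N → ℚ, (∀ t : ℚ, 0 ≤ t → Wt R fun x y => c x y + t * c' x y) ∧
      ∃ T : ℚ, ∀ t, T < t → Good (fun x y => c x y + t * c' x y) p b := by
  classical
  let c' : N → N → ℚ := fun x y => if R x y ∧ ∃ i, C i x ∧ C i y then 1 else 0
  have c0 : ∀ x y, 0 ≤ c' x y := fun x y => by
    simp only [c']
    split_ifs <;> norm_num
  have hW : ∀ t : ℚ, 0 ≤ t → Wt R fun x y => c x y + t * c' x y := by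
    intro t ht
    refine ⟨fun x y => ?_, fun x y => add_nonneg (hc.nonneg x y) (mul_nonneg ht (c0 x y)),
      fun x y h => by linarith [hc.one x y h, mul_nonneg ht (c0 x y)],
      fun x y h => by simp [c', h, hc.supp x y h]⟩
    have : c' x y = c' y x := if_congr ⟨fun ⟨h, i, h1, h2⟩ => ⟨hR _ _ h, i, h2, h1⟩,
      fun ⟨h, i, h1, h2⟩ => ⟨hR _ _ h, i, h2, h1⟩⟩ rfl rfl
    rw [hc.symm, this]
  choose K hK0 hK using fun i => poincare c0 (r := fun x y => R x y ∧ C i x ∧ C i y)
    (fun x y h => by simp only [c']; rw [if_pos ⟨h.1, i, h.2⟩]) (hb i)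
  have s0 : 0 ≤ ∑ x, ∑ y, c x y := sum_nonneg fun x _ => sum_nonneg fun y _ => hc.nonneg x y
  have k0 : 0 ≤ ∑ i, K i := sum_nonneg fun i _ => hK0 i
  refine ⟨c', hW, (∑ i, K i) * (4 * ∑ x, ∑ y, c x y), fun t ht w hw hwb => ?_⟩
  have ht0 : 0 ≤ t := le_trans (by positivity) ht.le
  set Y := ∑ i, w (p i) ^ 2 with hY
  have Y0 : 0 ≤ Y := sum_nonneg fun i _ => sq_nonneg _
  let g : N → ℚ := fun a => if h : ∃ i, C i a then w (p h.choose) else 0
  have hg : ∀ i a, C i a → g a = w (p i) := by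
    intro i a h
    have h' : ∃ i, C i a := ⟨i, h⟩
    simp only [g, dif_pos h']
    rw [hC _ _ _ h'.choose_spec h]
  have hg2 : ∀ a, g a ^ 2 ≤ Y := by
    intro a
    simp only [g]
    split_ifs with h
    · exact single_le_sum (f := fun i => w (p i) ^ 2) (fun i _ => sq_nonneg _) (mem_univ _)
    · simpa using Y0
  have split : ∀ u, En (fun x y => c x y + t * c' x y) u = En c u + t * En c' u := by
    intro u
    simp only [En, mul_sum, ← sum_add_distrib]
    exact sum_congr rfl fun a _ => sum_congr rfl fun b _ => by ring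
  have e1 := En_add (hW t ht0).symm hw (u := fun a => g a - w a) (fun i => by
    simp [hg i _ (hp i)])
  simp only [add_sub_cancel] at e1
  have e2 := En_nonneg (hW t ht0).nonneg fun a => g a - w a
  have e3 : En c' g = 0 := by
    refine sum_eq_zero fun x _ => sum_eq_zero fun y _ => ?_
    simp only [c']
    split_ifs with h
    · obtain ⟨-, i, h1, h2⟩ := h
      rw [hg i x h1, hg i y h2]
      simp
    · simp
  have e4 : En c g ≤ (4 * ∑ x, ∑ y, c x y) * Y := by
    simp only [En, mul_sum, sum_mul]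
    refine sum_le_sum fun x _ => sum_le_sum fun y _ => ?_
    have : (g x - g y) ^ 2 ≤ 4 * Y := by nlinarith [hg2 x, hg2 y, sq_nonneg (g x + g y)]
    nlinarith [hc.nonneg x y]
  have e5 : Y ≤ (∑ i, K i) * En c' w := by
    rw [sum_mul]
    refine sum_le_sum fun i _ => ?_
    have := hK i w
    rwa [hwb, sub_zero] at this
  have e6 : t * En c' w ≤ (4 * ∑ x, ∑ y, c x y) * Y := by
    have := En_nonneg hc.nonneg w
    have h1 := split g
    have h2 := split w
    rw [e3] at h1
    change En _ g = _ at e1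
    linarith
  have e7 : Y = 0 := by
    by_contra h
    have hY' : 0 < Y := lt_of_le_of_ne Y0 (Ne.symm h)
    nlinarith [mul_le_mul_of_nonneg_left e5 ht0, mul_le_mul_of_nonneg_left e6 k0]
  refine harm_zero (hW t ht0) hconn hw fun i => ?_
  exact pow_eq_zero_iff two_ne_zero |>.1
    ((sum_eq_zero_iff_of_nonneg fun i _ => sq_nonneg _).1 e7 i (mem_univ i))

lemma all_good {V : Type} [Fintype V] {R : N → N → Prop} (hR : ∀ a b, R a b → R b a)
    {p : Fin d → N} (hpi : Function.Injective p)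
    (hconn : ∀ a, ∃ i, Relation.ReflTransGen R (p i) a) (b : V → Fin d → N)
    (C : V → Fin d → N → Prop) (hC : ∀ v i j a, C v i a → C v j a → i = j)
    (hp : ∀ v i, C v i (p i))
    (hb : ∀ v i, Relation.ReflTransGen (fun x y => R x y ∧ C v i x ∧ C v i y) (p i) (b v i)) :
    ∃ c, Wt R c ∧ ∀ v, Good c p (b v) := by
  classical
  have key : ∀ s : Finset V, ∃ c, Wt R c ∧ ∀ v ∈ s, Good c p (b v) := by
    intro s
    induction s using Finset.induction_on with
    | empty =>
      refine ⟨fun x y => if R x y then 1 else 0, ⟨fun x y => if_congr ⟨hR _ _, hR _ _⟩ rfl rfl,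
        fun x y => by split_ifs <;> norm_num, fun x y h => by simp [h], fun x y h => by simp [h]⟩,
        by simp⟩
    | insert v s _ ih =>
      obtain ⟨c, hc, hs⟩ := ih
      obtain ⟨c', hW, T, hT⟩ := large_good hc hR hconn (C v) (hC v) (hp v) (hb v)
      have hfin : (⋃ u ∈ s, {t : ℚ | ¬ Function.Injective
          (Tm c p (b u) 1 + t • Tm c' p (b u) 0)}).Finite :=
        s.finite_toSet.biUnion fun u hu => fin_exc _ _ ((good_iff c hpi _).1 (hs u hu))
      obtain ⟨t, ht, ht'⟩ := ((Set.Ioi_infinite (max T 0)).sdiff hfin).nonempty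
      rw [Set.mem_Ioi, max_lt_iff] at ht
      refine ⟨_, hW t ht.2.le, fun u hu => ?_⟩
      rcases mem_insert.1 hu with rfl | hu
      · exact hT t ht.1
      · rw [good_iff _ hpi]
        have e : Tm (fun x y => c x y + t * c' x y) p (b u) 1 =
            Tm c p (b u) 1 + t • Tm c' p (b u) 0 := by
          ext w a
          simp only [Tm, LinearMap.coe_comp, LinearMap.coe_mk, AddHom.coe_mk, Function.comp,
            LinearMap.add_apply, LinearMap.smul_apply, Pi.add_apply, Pi.smul_apply, smul_eq_mul]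
          split_ifs
          · ring
          · rw [mul_sum, ← sum_add_distrib]
            exact sum_congr rfl fun x _ => by ring
        rw [e]
        by_contra h
        exact ht' (Set.mem_biUnion (mem_coe.2 hu) h)
  obtain ⟨c, hc, h⟩ := key univ
  exact ⟨c, hc, fun v => h v (mem_univ v)⟩

lemma exists_ell {R : N → N → Prop} {c : N → N → ℚ} (hc : Wt R c) {p : Fin d → N}
    (hpi : Function.Injective p) (hconn : ∀ a, ∃ i, Relation.ReflTransGen R (p i) a) :
    ∃ l : N → Fin d → ℚ, ∀ y : Fin d → ℚ, Harm c p (fun a => ∑ i, l a i * y i) ∧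
      ∀ j, ∑ i, l (p j) i * y i = y j := by
  have h1 : Function.Injective (Tm c p p 1) :=
    (good_iff c hpi p).1 fun w h1 h2 => harm_zero hc hconn h1 h2
  choose W hW using fun i => LinearMap.injective_iff_surjective.1 h1 (Pi.single (p i) 1)
  refine ⟨fun a i => W i a, fun y => ⟨fun a ha => ?_, fun j => ?_⟩⟩
  · have : ∀ i, ∑ x, c a x * (W i a - W i x) = 0 := fun i => by
      rw [← Tm_free c p p 1 (W i) a ha, hW, Pi.single_eq_of_ne (ha i).symm]
    calc ∑ x, c a x * (∑ i, W i a * y i - ∑ i, W i x * y i)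
        = ∑ i, (∑ x, c a x * (W i a - W i x)) * y i := by
          simp only [← sum_sub_distrib, mul_sum, sum_mul]
          rw [sum_comm]
          exact sum_congr rfl fun i _ => sum_congr rfl fun x _ => by ring
      _ = 0 := by simp [this]
  · have : ∀ i, W i (p j) = if j = i then 1 else 0 := fun i => by
      have := congrFun (hW i) (p j)
      rw [Tm_pin c hpi, one_mul] at this
      rw [this, Pi.single_apply]
      simp [hpi.eq_iff]
    simp [this]

/-- Rigidity: frames with equal Gram data that agree on shared functionals coincide. -/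
lemma rigid {V : Type} [Fintype V] (inc : N → V → Prop) (hinc : ∀ a, ∃ v, inc a v) (r : V)
    {p : Fin d → N} (hpi : Function.Injective p) (hpr : ∀ i, inc (p i) r)
    (hconn : ∀ a, ∃ i, Relation.ReflTransGen (fun a b => ∃ v, inc a v ∧ inc b v) (p i) a)
    (b : V → Fin d → N) (hbv : ∀ v i, inc (b v i) v)
    (C : V → Fin d → N → Prop) (hC : ∀ v i j a, C v i a → C v j a → i = j)
    (hp : ∀ v i, C v i (p i))
    (hb : ∀ v i, Relation.ReflTransGen
      (fun x y => (∃ v, inc x v ∧ inc y v) ∧ C v i x ∧ C v i y) (p i) (b v i)) :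
    ∃ l : N → Fin d → ℚ, ∀ (D : ℕ) (X : V → Fin d → Fin D → ℚ),
      (∀ u v i i', ∑ j, X u i j * X u i' j = ∑ j, X v i j * X v i' j) →
      (∀ a u v, inc a u → inc a v → ∀ j, ∑ i, l a i * X u i j = ∑ i, l a i * X v i j) →
      ∀ v, X v = X r := by
  obtain ⟨c, hc, hg⟩ := all_good (R := fun a b => ∃ v, inc a v ∧ inc b v)
    (fun a b ⟨v, h1, h2⟩ => ⟨v, h2, h1⟩) hpi hconn b C hC hp hb
  obtain ⟨l, hl⟩ := exists_ell hc hpi hconn
  refine ⟨l, fun D X hG hE v => ?_⟩
  choose o ho using hinc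
  let w : Fin D → N → ℚ := fun j a => ∑ i, l a i * X (o a) i j
  let w0 : Fin D → N → ℚ := fun j a => ∑ i, l a i * X r i j
  have hw : ∀ j a u, inc a u → w j a = ∑ i, l a i * X u i j :=
    fun j a u h => hE a _ _ (ho a) h j
  have hq : ∀ (m : Fin d → ℚ) (u : V), ∑ j, (∑ i, m i * X u i j) ^ 2 =
      ∑ i, ∑ i', m i * m i' * ∑ j, X u i j * X u i' j := by
    intro m u
    simp only [sq, sum_mul_sum]
    rw [sum_comm]
    refine sum_congr rfl fun i _ => ?_
    rw [sum_comm]
    refine sum_congr rfl fun i' _ => ?_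
    rw [mul_sum]
    exact sum_congr rfl fun j _ => by ring
  have e1 : ∑ j, En c (w j) = ∑ j, En c (w0 j) := by
    simp only [En]
    rw [sum_comm, sum_comm (f := fun j a => ∑ b, c a b * (w0 j a - w0 j b) ^ 2)]
    refine sum_congr rfl fun a _ => ?_
    rw [sum_comm, sum_comm (f := fun j b => c a b * (w0 j a - w0 j b) ^ 2)]
    refine sum_congr rfl fun a' _ => ?_
    by_cases hR : ∃ u, inc a u ∧ inc a' u
    · obtain ⟨u, h1, h2⟩ := hR
      rw [← mul_sum, ← mul_sum]
      congr 1
      simp only [hw _ _ u h1, hw _ _ u h2, w0, ← sum_sub_distrib, ← sub_mul, hq, hG u r]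
    · simp [hc.supp a a' hR]
  have hu0 : ∀ j i, w j (p i) - w0 j (p i) = 0 := fun j i => by
    rw [hw j _ r (hpr i), sub_self]
  have e2 : ∀ j, En c (w j) = En c (w0 j) + En c fun a => w j a - w0 j a := by
    intro j
    have := En_add hc.symm (hl fun i => X r i j).1 (u := fun a => w j a - w0 j a) (hu0 j)
    simpa [w0] using this
  have e3 : ∑ j, En c (fun a => w j a - w0 j a) = 0 := by
    simp only [e2, sum_add_distrib] at e1
    linarith
  funext i j
  have e4 := zero_of_En hc hconn (hu0 j) ((sum_eq_zero_iff_of_nonneg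
    fun j _ => En_nonneg hc.nonneg _).1 e3 j (mem_univ j)).le
  have e5 := hg v _ (hl fun i => X v i j - X r i j).1 fun k => by
    have := congrFun e4 (b v k)
    rw [hw j _ v (hbv v k)] at this
    simp only [mul_sub, sum_sub_distrib]
    exact this
  have e6 := congrFun e5 (p i)
  rw [(hl fun i => X v i j - X r i j).2 i] at e6
  exact sub_eq_zero.1 e6

end Pool.Agent.H.MP_bf2f06_lc
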