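import Mathlib

open Finset MeasureTheory

namespace Pool.Agent.H.MP_bf2f06_lc

lemma packing_dual {ι κ : Type} [Fintype ι] [Fintype κ] [DecidableEq ι] [DecidableEq κ]
    (A : ι → κ → ℝ) (b : ι → ℝ) (hb : ∀ i, 0 < b i) (lam : ℝ)
    (h : ∀ y : κ → ℝ, (∀ j, 0 ≤ y j) → (∀ i, ∑ j, A i j * y j ≤ b i) → ∑ j, y j ≤ lam) :
    ∃ z : ι → ℝ, (∀ i, 0 ≤ z i) ∧ (∀ j, 1 ≤ ∑ i, A i j * z i) ∧ ∑ i, b i * z i ≤ lam := by
  let U : Set ((ι → ℝ) × ℝ) := {p | ∃ y : κ → ℝ, (∀ j, 0 ≤ y j) ∧
    (∀ i, ∑ j, A i j * y j < p.1 i) ∧ p.2 < ∑ j, y j}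
  have hconv : Convex ℝ U := by
    rintro p ⟨y, hy, h1, h2⟩ q ⟨y', hy', h1', h2'⟩ s t hs ht hst
    have cv : ∀ a a' c c' : ℝ, a < c → a' < c' → s * a + t * a' < s * c + t * c' := by
      intro a a' c c' e e'
      rcases hs.eq_or_lt with e0 | e0
      · have : t = 1 := by linarith
        rw [← e0, this]
        linarith
      · nlinarith [mul_le_mul_of_nonneg_left e'.le ht, mul_lt_mul_of_pos_left e e0]
    refine ⟨fun j => s * y j + t * y' j,
      fun j => add_nonneg (mul_nonneg hs (hy j)) (mul_nonneg ht (hy' j)), fun i => ?_, ?_⟩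
    · have := cv _ _ _ _ (h1 i) (h1' i)
      rw [mul_sum, mul_sum, ← sum_add_distrib] at this
      simp only [Prod.fst_add, Prod.smul_fst, Pi.add_apply, Pi.smul_apply, smul_eq_mul]
      convert this using 2
      ring
    · have := cv _ _ _ _ h2 h2'
      rw [mul_sum, mul_sum, ← sum_add_distrib] at this
      simpa using this
  have hopen : IsOpen U := by
    have : U = ⋃ y : {y : κ → ℝ // ∀ j, 0 ≤ y j},
        ((⋂ i, {p : (ι → ℝ) × ℝ | ∑ j, A i j * y.1 j < p.1 i}) ∩ {p | p.2 < ∑ j, y.1 j}) := by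
      ext p
      simp only [U, Set.mem_ofPred_eq, Set.mem_iUnion, Set.mem_inter_iff, Set.mem_iInter,
        Subtype.exists, exists_prop]
    rw [this]
    refine isOpen_iUnion fun y => IsOpen.inter (isOpen_iInter_of_finite fun i => ?_) ?_
    · exact isOpen_lt continuous_const (by fun_prop)
    · exact isOpen_lt (by fun_prop) continuous_const
  have hx : (b, lam) ∉ U := by
    rintro ⟨y, hy, h1, h2⟩
    exact absurd (h y hy fun i => (h1 i).le) (not_le.2 h2)
  obtain ⟨f, hf⟩ := geometric_hahn_banach_open_point hconv hopen hx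
  have hcone : ∀ q : (ι → ℝ) × ℝ, (∀ s : ℝ, 0 < s → (b, -1) + s • q ∈ U) → f q ≤ 0 := by
    intro q hq
    by_contra hpos
    push Not at hpos
    have := hf _ (hq ((|f (b, lam) - f (b, -1)| + 1) / f q) (by positivity))
    rw [map_add, map_smul, smul_eq_mul, div_mul_cancel₀ _ hpos.ne'] at this
    linarith [le_abs_self (f (b, lam) - f (b, -1))]
  have hexp : ∀ (u : ι → ℝ) (t : ℝ),
      f (u, t) = ∑ i, u i * f (Pi.single i 1, 0) + t * f (0, 1) := by
    intro u t
    have : (u, t) = ∑ i, u i • ((Pi.single i 1, 0) : (ι → ℝ) × ℝ) + t • ((0, 1) : (ι → ℝ) × ℝ) := by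
      ext i
      · simp [Prod.fst_sum, Finset.sum_apply, Pi.single_apply]
      · simp [Prod.snd_sum]
    rw [this, map_add, map_sum]
    simp only [map_smul, smul_eq_mul]
  have z0 : ∀ i, f (Pi.single i 1, 0) ≤ 0 := fun i => hcone _ fun s hs =>
    ⟨0, fun _ => le_rfl, fun i' => by
      have := hb i'
      have h2 : 0 ≤ s * (Pi.single i (1 : ℝ) : ι → ℝ) i' := by
        rw [Pi.single_apply]
        split_ifs <;> positivity
      simp only [Pi.zero_apply, mul_zero, sum_const_zero, Prod.fst_add, Prod.smul_fst,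
        Pi.add_apply, Pi.smul_apply, smul_eq_mul]
      linarith, by simp⟩
  have g1 : ∀ j, f (fun i => A i j, 1) ≤ 0 := fun j => hcone _ fun s hs =>
    ⟨Pi.single j s, fun j' => by
      rw [Pi.single_apply]
      split_ifs <;> positivity, fun i => by
      have := hb i
      simp only [Pi.single_apply, mul_ite, mul_zero, sum_ite_eq', mem_univ, if_true,
        Prod.fst_add, Prod.smul_fst, Pi.add_apply, Pi.smul_apply, smul_eq_mul]
      linarith, by simp⟩
  have hl : 0 ≤ lam := by simpa using h 0 (fun _ => le_rfl) (fun i => by simpa using (hb i).le)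
  have g2 : 0 < f (0, 1) := by
    have := hf (b, -1) ⟨0, fun _ => le_rfl, fun i => by simpa using hb i, by simp⟩
    rw [hexp, hexp b lam] at this
    nlinarith
  have g3 : 0 ≤ f (b, lam) := by
    by_contra hneg
    push Not at hneg
    have hs : 0 < -f (b, lam) / (|f (b, -1)| + 1) := by
      apply div_pos <;> [linarith; positivity]
    have := hf ((-f (b, lam) / (|f (b, -1)| + 1)) • (b, -1))
      ⟨0, fun _ => le_rfl, fun i => by simpa using mul_pos hs (hb i), by simpa using hs⟩
    rw [map_smul, smul_eq_mul, div_mul_eq_mul_div, div_lt_iff₀ (by positivity)] at this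
    nlinarith [neg_abs_le (f (b, -1))]
  refine ⟨fun i => -f (Pi.single i 1, 0) / f (0, 1), fun i => div_nonneg (by linarith [z0 i]) g2.le,
    fun j => ?_, ?_⟩
  · have := g1 j
    rw [hexp] at this
    simp only [← mul_div_assoc, ← sum_div, mul_neg, sum_neg_distrib]
    rw [le_div_iff₀ g2]
    linarith
  · rw [hexp] at g3
    simp only [← mul_div_assoc, ← sum_div, mul_neg, sum_neg_distrib]
    rw [div_le_iff₀ g2]
    linarith

lemma coarea {V E : Type} [Fintype V] [DecidableEq V] [Fintype E] (src tgt : E → V) (x : E → ℝ)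
    (hx : ∀ e, 0 ≤ x e) (c : ℝ) (r v : V)
    (hcut : ∀ S : Finset V, r ∈ S → v ∉ S → c ≤ ∑ e with (src e ∈ S ↔ tgt e ∉ S), x e)
    (φ : V → ℝ) (h0 : φ r ≤ 0) (h1 : 1 ≤ φ v) : c ≤ ∑ e, x e * |φ (src e) - φ (tgt e)| := by
  let I : E → Set ℝ := fun e => Set.Ioc (min (φ (src e)) (φ (tgt e))) (max (φ (src e)) (φ (tgt e)))
  have hint : ∀ (a b k : ℝ), Integrable ((Set.Ioc a b).indicator fun _ => k) :=
    fun a b k => (integrable_indicator_iff measurableSet_Ioc).2 (integrableOn_const (by simp))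
  have hval : ∀ (a b k : ℝ), a ≤ b → ∫ t, (Set.Ioc a b).indicator (fun _ => k) t = k * (b - a) := by
    intro a b k hab
    rw [integral_indicator measurableSet_Ioc]
    simp [hab, mul_comm]
  have hle : ∀ t, (Set.Ioc (0 : ℝ) 1).indicator (fun _ => c) t ≤
      ∑ e, (I e).indicator (fun _ => x e) t := by
    intro t
    have hn : ∀ e, 0 ≤ (I e).indicator (fun _ => x e) t :=
      fun e => Set.indicator_nonneg (fun _ _ => hx e) t
    by_cases ht : t ∈ Set.Ioc (0 : ℝ) 1
    · rw [Set.indicator_of_mem ht]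
      refine (hcut (univ.filter fun u => φ u < t) (by simp; linarith [ht.1])
        (by simp; linarith [ht.2])).trans ?_
      rw [sum_filter]
      refine sum_le_sum fun e _ => ?_
      split_ifs with he
      · rw [Set.indicator_of_mem]
        simp only [mem_filter, mem_univ, true_and, not_lt] at he
        simp only [I, Set.mem_Ioc, min_lt_iff, le_max_iff]
        by_cases h : φ (src e) < t
        · exact ⟨Or.inl h, Or.inr (he.1 h)⟩
        · exact ⟨Or.inr (not_le.1 fun h' => h (he.2 h')), Or.inl (not_lt.1 h)⟩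
      · exact hn e
    · rw [Set.indicator_of_notMem ht]
      exact sum_nonneg fun e _ => hn e
  have := integral_mono (hint 0 1 c) (integrable_finsetSum univ fun e _ => hint _ _ (x e)) hle
  rw [hval 0 1 c zero_le_one, integral_finsetSum univ fun e _ => hint _ _ (x e)] at this
  rw [sub_zero, mul_one] at this
  refine this.trans (le_of_eq (sum_congr rfl fun e _ => ?_))
  rw [hval _ _ _ min_le_max, max_sub_min_eq_abs']

end Pool.Agent.H.MP_bf2f06_lc
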