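import Pool.Agent.H.MP_bf2f06_lc.Proto
import Pool.Agent.H.MP_bf2f06_lc.LP
import Pool.Agent.H.MP_bf2f06_lc.Harm

open Finset Filter Topology

set_option linter.unusedSectionVars false

namespace Pool.Agent.H.MP_bf2f06_lc

variable {V : Type} [Fintype V] [DecidableEq V] {E : Type} [Fintype E] [DecidableEq E]

lemma rtg_mono {α : Type} {r p : α → α → Prop} (h : ∀ a b, r a b → p a b) {a b : α}
    (hab : Relation.ReflTransGen r a b) : Relation.ReflTransGen p a b := by
  induction hab with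
  | refl => exact .refl
  | tail _ h' ih => exact ih.tail (h _ _ h')

def Conn (src tgt : E → V) (F : Finset E) (r u : V) : Prop :=
  Relation.ReflTransGen (fun a b => ∃ e ∈ F, (src e = a ∧ tgt e = b) ∨ (src e = b ∧ tgt e = a)) r u

lemma Conn.mono {src tgt : E → V} {F F' : Finset E} {r u : V} (h : Conn src tgt F r u)
    (hF : F ⊆ F') : Conn src tgt F' r u :=
  rtg_mono (fun _ _ ⟨e, he, h⟩ => ⟨e, hF he, h⟩) h

lemma flow (src tgt : E → V) (x : E → ℝ) (hx : ∀ e, 0 < x e) {c : ℝ} (hc : 1 < c) (r v : V)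
    (hcut : ∀ S : Finset V, r ∈ S → S ≠ univ → c ≤ ∑ e with (src e ∈ S ↔ tgt e ∉ S), x e) :
    ∃ y : Finset E → ℝ, (∀ F, 0 ≤ y F) ∧ (∀ F, ¬ Conn src tgt F r v → y F = 0) ∧
      (∀ e, ∑ F with e ∈ F, y F ≤ x e) ∧ 1 ≤ ∑ F, y F := by
  classical
  have hall : ∀ u, Conn src tgt univ r u := by
    by_contra h
    push Not at h
    obtain ⟨u, hu⟩ := h
    have := hcut (univ.filter fun u => Conn src tgt univ r u)
      (mem_filter.2 ⟨mem_univ _, Relation.ReflTransGen.refl⟩)
      (fun h => hu (mem_filter.1 (h.symm ▸ mem_univ u)).2)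
    rw [sum_eq_zero] at this
    · linarith
    · intro e he
      exfalso
      simp only [mem_filter, mem_univ, true_and] at he
      by_cases h : Conn src tgt univ r (src e)
      · exact he.1 h (h.tail ⟨e, mem_univ _, Or.inl ⟨rfl, rfl⟩⟩)
      · exact h ((not_not.1 fun h' => h (he.2 h')).tail ⟨e, mem_univ _, Or.inr ⟨rfl, rfl⟩⟩)
  by_contra hno
  obtain ⟨z, z0, z1, z2⟩ := packing_dual (κ := {F // Conn src tgt F r v})
    (fun e F => if e ∈ F.1 then 1 else 0) x hx 1 (fun y hy h => by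
      by_contra h1
      refine hno ⟨fun F => if h : Conn src tgt F r v then y ⟨F, h⟩ else 0, fun F => ?_,
        fun F hF => dif_neg hF, fun e => ?_, ?_⟩
      · dsimp only
        split_ifs
        · exact hy _
        · exact le_rfl
      · refine le_trans (le_of_eq ?_) (h e)
        rw [sum_filter, ← Fintype.sum_subtype_add_sum_subtype (fun F => Conn src tgt F r v)]
        rw [Finset.sum_eq_zero (s := (univ : Finset {F // ¬ Conn src tgt F r v}))
          (fun F _ => by simp [F.2]), add_zero]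
        exact sum_congr rfl fun F _ => by simp [F.2]
      · refine le_trans (not_le.1 h1).le (le_of_eq ?_)
        rw [← Fintype.sum_subtype_add_sum_subtype (fun F => Conn src tgt F r v)]
        rw [Finset.sum_eq_zero (s := (univ : Finset {F // ¬ Conn src tgt F r v}))
          (fun F _ => by simp [F.2]), add_zero]
        exact sum_congr rfl fun F _ => by simp [F.2])
  have hmin : ∀ u, ∃ F, Conn src tgt F r u ∧
      ∀ F', Conn src tgt F' r u → ∑ e ∈ F, z e ≤ ∑ e ∈ F', z e := by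
    intro u
    obtain ⟨F, hF, h⟩ := exists_min_image (univ.filter fun F => Conn src tgt F r u)
      (fun F => ∑ e ∈ F, z e) ⟨univ, mem_filter.2 ⟨mem_univ _, hall u⟩⟩
    exact ⟨F, (mem_filter.1 hF).2, fun F' h' => h F' (mem_filter.2 ⟨mem_univ _, h'⟩)⟩
  choose M hM hM' using hmin
  have hins : ∀ e F, ∑ e' ∈ insert e F, z e' ≤ z e + ∑ e' ∈ F, z e' := by
    intro e F
    by_cases h : e ∈ F
    · rw [insert_eq_of_mem h]
      linarith [z0 e]
    · rw [sum_insert h]
  have := coarea src tgt x (fun e => (hx e).le) c r v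
    (fun S h1 h2 => hcut S h1 fun h => h2 (h ▸ mem_univ v)) (fun u => ∑ e ∈ M u, z e)
    (by simpa using hM' r ∅ Relation.ReflTransGen.refl)
    (by simpa using z1 ⟨M v, hM v⟩)
  have h2 : ∑ e, x e * |∑ e ∈ M (src e), z e - ∑ e ∈ M (tgt e), z e| ≤ ∑ e, x e * z e := by
    refine sum_le_sum fun e _ => mul_le_mul_of_nonneg_left ?_ (hx e).le
    have a1 := hM' (tgt e) (insert e (M (src e))) (((hM (src e)).mono (subset_insert _ _)).tail
      ⟨e, mem_insert_self _ _, Or.inl ⟨rfl, rfl⟩⟩)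
    have a2 := hM' (src e) (insert e (M (tgt e))) (((hM (tgt e)).mono (subset_insert _ _)).tail
      ⟨e, mem_insert_self _ _, Or.inr ⟨rfl, rfl⟩⟩)
    rw [abs_le]
    constructor <;> linarith [hins e (M (src e)), hins e (M (tgt e))]
  linarith

lemma families (src tgt : E → V) (x : E → ℝ) (hx : ∀ e, 0 ≤ x e) (r : V)
    (hcut : ∀ S : Finset V, r ∈ S → S ≠ univ → 1 ≤ ∑ e with (src e ∈ S ↔ tgt e ∉ S), x e)
    {η : ℝ} (hη : 0 < η) : ∃ (d : ℕ) (μ : E → ℕ), 0 < d ∧ (∑ e, μ e : ℕ) ≤ (∑ e, x e + η) * d ∧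
      ∀ v, ∃ F : Fin d → Finset E, (∀ i, Conn src tgt (F i) r v) ∧
        ∀ e, (univ.filter fun i => e ∈ F i).card ≤ μ e := by
  classical
  have s0 : 0 ≤ ∑ e, x e := sum_nonneg fun e _ => hx e
  set m : ℝ := (Fintype.card E : ℝ) with hm
  have m0 : 0 ≤ m := by positivity
  set δ := η / (2 * (∑ e, x e + m + 1)) with hδ
  have δ0 : 0 < δ := by positivity
  have δ1 : δ * (2 * (∑ e, x e + m + 1)) = η := div_mul_cancel₀ _ (by positivity)
  let x' : E → ℝ := fun e => (1 + δ) * x e + δ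
  have hx' : ∀ e, 0 < x' e := fun e => by
    have := hx e
    positivity
  set K := Fintype.card (Finset E) with hK
  obtain ⟨d, hd⟩ := exists_nat_gt (2 * m * (K + 1) / η)
  have d0 : (0 : ℝ) < d := lt_of_le_of_lt (by positivity) hd
  refine ⟨d, fun e => ⌈d * x' e⌉₊ + K, by exact_mod_cast d0, ?_, fun v => ?_⟩
  · push_cast
    have h1 : ∑ e, ((⌈d * x' e⌉₊ : ℝ) + K) ≤ ∑ e, (d * ((1 + δ) * x e) + (d * δ + (K + 1))) :=
      sum_le_sum fun e _ => by
        have := Nat.ceil_lt_add_one (mul_nonneg d0.le (hx' e).le)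
        simp only [x'] at this ⊢
        linarith
    rw [sum_add_distrib (f := fun e => d * ((1 + δ) * x e)), ← mul_sum, ← mul_sum, sum_const,
      card_univ, nsmul_eq_mul] at h1
    rw [div_lt_iff₀ hη] at hd
    nlinarith [mul_pos d0 δ0]
  · obtain ⟨y, y0, y1, y2, y3⟩ := flow src tgt x' hx' (c := 1 + δ) (by linarith) r v
      (fun S h1 h2 => by
        have := mul_le_mul_of_nonneg_left (hcut S h1 h2) (show 0 ≤ 1 + δ by linarith)
        rw [mul_one, mul_sum] at this
        exact this.trans (sum_le_sum fun e _ => by simp only [x']; linarith))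
    have hc : Fintype.card (Fin d) ≤ Fintype.card (Σ F : Finset E, Fin ⌈d * y F⌉₊) := by
      simp only [Fintype.card_fin, Fintype.card_sigma]
      have : (d : ℝ) ≤ ∑ F, (⌈d * y F⌉₊ : ℝ) := by
        refine le_trans ?_ (sum_le_sum fun F _ => Nat.le_ceil _)
        rw [← mul_sum]
        nlinarith
      exact_mod_cast this
    obtain ⟨g⟩ := Function.Embedding.nonempty_of_card_le hc
    refine ⟨fun i => (g i).1, fun i => ?_, fun e => ?_⟩
    · by_contra h
      have := (g i).2.2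
      simp [y1 _ h] at this
    · have h1 : (univ.filter fun i => e ∈ (g i).1).card ≤
          ((univ.filter fun F : Finset E => e ∈ F).sigma
            fun F => (univ : Finset (Fin ⌈d * y F⌉₊))).card :=
        card_le_card_of_injOn g (fun i hi => by simpa using hi) g.injective.injOn
      rw [card_sigma] at h1
      simp only [card_univ, Fintype.card_fin] at h1
      have h2 : ∑ F with e ∈ F, (⌈d * y F⌉₊ : ℝ) ≤ ∑ F with e ∈ F, (d * y F + 1) :=
        sum_le_sum fun F _ => (Nat.ceil_lt_add_one (mul_nonneg d0.le (y0 F))).le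
      rw [sum_add_distrib, ← mul_sum, sum_const, nsmul_eq_mul, mul_one] at h2
      have h3 : ((univ.filter fun F : Finset E => e ∈ F).card : ℝ) ≤ K := by
        exact_mod_cast card_le_univ _
      have h4 := Nat.le_ceil (d * x' e)
      have h5 := mul_le_mul_of_nonneg_left (y2 e) d0.le
      have h6 : ((∑ F with e ∈ F, ⌈d * y F⌉₊ : ℕ) : ℝ) ≤ (⌈d * x' e⌉₊ + K : ℕ) := by
        push_cast
        linarith
      exact h1.trans (by exact_mod_cast h6)

lemma upper {G : SimpleGraph V} (src tgt : E → V) (hadj : ∀ e, G.Adj (src e) (tgt e))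
    (x : E → ℝ) (hx : ∀ e, 0 ≤ x e) (r : V)
    (hcut : ∀ S : Finset V, r ∈ S → S ≠ univ → 1 ≤ ∑ e with (src e ∈ S ↔ tgt e ∉ S), x e)
    {ε : ℝ} (hε : 0 < ε) : ∀ᶠ n : ℕ in atTop, ∃ N : ℕ, (∃ P : Protocol G n N, P.Correct) ∧
      (N : ℝ) ≤ (∑ e, x e + ε) * n := by
  classical
  obtain ⟨d, μ, hd, hμ, hF⟩ := families src tgt x hx r hcut (half_pos hε)
  choose F hF hF' using hF
  have hj : ∀ v e, Nonempty ({i // e ∈ F v i} ↪ Fin (μ e)) := fun v e =>
    Function.Embedding.nonempty_of_card_le (by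
      rw [Fintype.card_subtype, Fintype.card_fin]
      exact hF' v e)
  let j := fun v e => (hj v e).some
  let inc : (Fin d ⊕ Σ e, Fin (μ e)) → V → Prop := fun a v =>
    match a with
    | Sum.inl _ => v = r
    | Sum.inr a => v = src a.1 ∨ v = tgt a.1
  let C : V → Fin d → (Fin d ⊕ Σ e, Fin (μ e)) → Prop := fun v i a =>
    match a with
    | Sum.inl k => k = i
    | Sum.inr a => ∃ h : a.1 ∈ F v i, j v a.1 ⟨i, h⟩ = a.2
  have chain : ∀ v i u, Conn src tgt (F v i) r u → ∃ b, inc b u ∧ C v i b ∧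
      Relation.ReflTransGen (fun x y => (∃ w, inc x w ∧ inc y w) ∧ C v i x ∧ C v i y)
        (Sum.inl i) b := by
    intro v i u h
    induction h with
    | refl => exact ⟨Sum.inl i, rfl, rfl, Relation.ReflTransGen.refl⟩
    | @tail a a' _ h ih =>
      obtain ⟨b, h1, h2, h3⟩ := ih
      obtain ⟨e, he, h⟩ := h
      refine ⟨Sum.inr ⟨e, j v e ⟨i, he⟩⟩, ?_, ⟨he, rfl⟩, h3.tail ⟨⟨a, h1, ?_⟩, h2, he, rfl⟩⟩
      · rcases h with h | h
        · exact Or.inr h.2.symm
        · exact Or.inl h.1.symm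
      · rcases h with h | h
        · exact Or.inl h.1.symm
        · exact Or.inr h.2.symm
  choose b hb1 hb2 hb3 using fun v i => chain v i v (hF v i)
  obtain ⟨l, hl⟩ := rigid inc (fun a => by
      rcases a with i | a
      · exact ⟨r, rfl⟩
      · exact ⟨src a.1, Or.inl rfl⟩) r Sum.inl_injective (fun _ => rfl) (fun a => by
      rcases a with i | a
      · exact ⟨i, Relation.ReflTransGen.refl⟩
      · exact ⟨⟨0, hd⟩, (rtg_mono (fun _ _ h => h.1) (hb3 (src a.1) ⟨0, hd⟩)).tail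
          ⟨src a.1, hb1 _ _, Or.inl rfl⟩⟩) b hb1 C (fun v i i' a h h' => by
      rcases a with k | a
      · exact h.symm.trans h'
      · obtain ⟨h1, h2⟩ := h
        obtain ⟨h1', h2'⟩ := h'
        exact congrArg Subtype.val ((j v a.1).injective (h2.trans h2'.symm)))
    (fun _ _ => rfl) hb3
  obtain ⟨q, hq, l', hl'⟩ : ∃ q : ℕ, 0 < q ∧ ∃ l' : (Σ e, Fin (μ e)) → Fin d → ℤ,
      ∀ a i, (l' a i : ℚ) = q * l (Sum.inr a) i := by
    refine ⟨∏ p : (Σ e, Fin (μ e)) × Fin d, (l (Sum.inr p.1) p.2).den,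
      prod_pos fun p _ => Rat.den_pos _, ?_⟩
    have : ∀ a i, ∃ z : ℤ, (z : ℚ) =
        (∏ p : (Σ e, Fin (μ e)) × Fin d, (l (Sum.inr p.1) p.2).den : ℕ) * l (Sum.inr a) i := by
      intro a i
      obtain ⟨k, hk⟩ := dvd_prod_of_mem
        (fun p : (Σ e, Fin (μ e)) × Fin d => (l (Sum.inr p.1) p.2).den) (mem_univ (a, i))
      refine ⟨k * (l (Sum.inr a) i).num, ?_⟩
      rw [hk]
      push_cast
      rw [← Rat.den_mul_eq_num]
      ring
    choose l' hl' using this
    exact ⟨l', hl'⟩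
  have hq' : (q : ℚ) ≠ 0 := by exact_mod_cast hq.ne'
  have := proto (G := G) (fun a : Σ e, Fin (μ e) => src a.1) (fun a => tgt a.1) (fun a => hadj _)
    hd l' (fun D X h1 h2 u v => by
      have h3 : ∀ (a : Σ e, Fin (μ e)) k, ∑ i, l (Sum.inr a) i * (X (src a.1) i k : ℚ) =
          ∑ i, l (Sum.inr a) i * (X (tgt a.1) i k : ℚ) := by
        intro a k
        have := congrArg (Int.cast : ℤ → ℚ) (h2 a k)
        push_cast at this
        simp only [hl', mul_assoc, ← mul_sum] at this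
        exact mul_left_cancel₀ hq' this
      have := hl D (fun v i k => X v i k) (fun u v i i' => by exact_mod_cast h1 u v i i')
        (fun a u v hu hv k => by
          rcases a with i | a
          · rw [show u = r from hu, show v = r from hv]
          · rcases hu with rfl | rfl <;> rcases hv with rfl | rfl
            · rfl
            · exact h3 a k
            · exact (h3 a k).symm
            · rfl)
      funext i k
      have h4 := congrFun (congrFun ((this u).trans (this v).symm) i) k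
      exact_mod_cast h4) (half_pos hε)
  filter_upwards [this] with n ⟨N, h1, h2⟩
  refine ⟨N, h1, h2.trans (mul_le_mul_of_nonneg_right ?_ (by positivity))⟩
  have d0 : (0 : ℝ) < d := by exact_mod_cast hd
  have : (Fintype.card (Σ e, Fin (μ e)) : ℝ) / d ≤ ∑ e, x e + ε / 2 := by
    rw [div_le_iff₀ d0]
    simpa using hμ
  linarith

lemma tendsto_gen {Q : ℕ → ℕ → Prop} {L : ℝ}
    (hup : ∀ ε : ℝ, 0 < ε → ∀ᶠ n : ℕ in atTop, ∃ N : ℕ, Q n N ∧ (N : ℝ) ≤ (L + ε) * n)
    (hlow : ∀ n N, Q n N → L * n ≤ N) :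
    Tendsto (fun n : ℕ => ((sInf {N | Q n N} : ℕ) : ℝ) / n) atTop (𝓝 L) := by
  rw [tendsto_order]
  refine ⟨fun a ha => ?_, fun a ha => ?_⟩
  · filter_upwards [hup 1 one_pos, eventually_gt_atTop 0] with n ⟨N, h1, _⟩ hn
    have hP := Nat.sInf_mem (s := {N | Q n N}) ⟨N, h1⟩
    have n0 : (0 : ℝ) < n := by exact_mod_cast hn
    exact ha.trans_le ((le_div_iff₀ n0).2 (hlow _ _ hP))
  · filter_upwards [hup ((a - L) / 2) (by linarith), eventually_gt_atTop 0] with n ⟨N, h1, h2⟩ hn
    have h3 : ((sInf {N | Q n N} : ℕ) : ℝ) ≤ N := by exact_mod_cast Nat.sInf_le h1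
    have n0 : (0 : ℝ) < n := by exact_mod_cast hn
    rw [div_lt_iff₀ n0]
    nlinarith

lemma tendsto_of {G : SimpleGraph V} (hG : G.Connected) {L : ℝ}
    (hup : ∀ ε : ℝ, 0 < ε → ∀ᶠ n : ℕ in atTop, ∃ N : ℕ, (∃ P : Protocol G n N, P.Correct) ∧
      (N : ℝ) ≤ (L + ε) * n)
    (hlow : ∀ n N (P : Protocol G n N), P.Correct → L * n ≤ N) :
    Tendsto (fun n : ℕ => (cost G n : ℝ) / n) atTop (𝓝 L) ∧
      Tendsto (fun n : ℕ => (costAll G n : ℝ) / n) atTop (𝓝 L) := by
  haveI := hG.nonempty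
  refine ⟨tendsto_gen hup fun n N ⟨P, hP⟩ => hlow n N P hP,
    tendsto_gen (fun ε hε => ?_) fun n N ⟨P, hP⟩ => hlow n N P hP.correct⟩
  obtain ⟨M, hM⟩ := strengthen hG
  filter_upwards [hup _ (half_pos hε),
    tendsto_natCast_atTop_atTop.eventually (eventually_ge_atTop (2 * M / ε))]
    with n ⟨N, ⟨P, hP⟩, h2⟩ h3
  refine ⟨N + M, hM n N P hP, ?_⟩
  rw [div_le_iff₀ hε] at h3
  push_cast
  linarith

theorem main (G : SimpleGraph V) (hG : G.Connected) :
    Tendsto (fun n : ℕ => (cost G n : ℝ) / n) atTop (𝓝 (fc G)) ∧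
      Tendsto (fun n : ℕ => (costAll G n : ℝ) / n) atTop (𝓝 (fc G)) := by
  classical
  have hbdd : BddAbove {s | ∃ g : Finset V → ℝ, (∀ S, 0 ≤ g S ∧ g S ≤ 1) ∧ g ∅ = 0 ∧ g univ = 0 ∧
      (∀ a b, G.Adj a b → ∑ S with (a ∈ S ↔ b ∉ S), g S ≤ 1) ∧ s = ∑ S, g S} := by
    refine ⟨∑ _S : Finset V, 1, ?_⟩
    rintro s ⟨g, h, -, -, -, rfl⟩
    exact sum_le_sum fun S _ => (h S).2
  refine tendsto_of hG (fun ε hε => ?_) (fun n N P hP => ?_)
  · obtain ⟨z, z0, z1, z2⟩ := packing_dual (ι := {p : V × V // G.Adj p.1 p.2})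
      (κ := {S : Finset V // S ≠ ∅ ∧ S ≠ univ})
      (fun e S => if (e.1.1 ∈ S.1 ↔ e.1.2 ∉ S.1) then 1 else 0) (fun _ => 1) (fun _ => one_pos)
      (fc G) (fun y hy h => by
        let g : Finset V → ℝ := fun S => if h : S ≠ ∅ ∧ S ≠ univ then y ⟨S, h⟩ else 0
        have g0 : ∀ S, 0 ≤ g S := fun S => by
          simp only [g]
          split_ifs
          · exact hy _
          · exact le_rfl
        have g1 : ∀ a b, G.Adj a b → ∑ S with (a ∈ S ↔ b ∉ S), g S ≤ 1 := by
          intro a b hab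
          refine le_trans (le_of_eq ?_) (h ⟨(a, b), hab⟩)
          rw [sum_filter, ← Fintype.sum_subtype_add_sum_subtype (fun S : Finset V => S ≠ ∅ ∧ S ≠ univ)]
          rw [Finset.sum_eq_zero (s := (univ : Finset {S : Finset V // ¬ (S ≠ ∅ ∧ S ≠ univ)}))
            (fun S _ => by simp only [g, dif_neg S.2, ite_self]), add_zero]
          exact sum_congr rfl fun S _ => by simp only [g, dif_pos S.2, ite_mul, one_mul, zero_mul]
        refine le_csSup hbdd ⟨g, fun S => ⟨g0 S, ?_⟩, by simp [g], by simp [g], g1, ?_⟩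
        · by_cases hS : S ≠ ∅ ∧ S ≠ univ
          · obtain ⟨a, ha⟩ := nonempty_iff_ne_empty.2 hS.1
            obtain ⟨b, hb⟩ : ∃ b, b ∉ S := by
              by_contra h
              push Not at h
              exact hS.2 (eq_univ_iff_forall.2 h)
            obtain ⟨p⟩ := hG.preconnected a b
            obtain ⟨e, -, h1, h2⟩ := p.exists_boundary_dart S ha hb
            refine le_trans ?_ (g1 _ _ e.adj)
            exact single_le_sum (fun S _ => g0 S) (mem_filter.2 ⟨mem_univ _, iff_of_true h1 h2⟩)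
          · simp only [g, dif_neg hS, zero_le_one]
        · rw [← Fintype.sum_subtype_add_sum_subtype (fun S : Finset V => S ≠ ∅ ∧ S ≠ univ)]
          rw [Finset.sum_eq_zero (s := (univ : Finset {S : Finset V // ¬ (S ≠ ∅ ∧ S ≠ univ)}))
            (fun S _ => by simp only [g, dif_neg S.2]), add_zero]
          exact sum_congr rfl fun S _ => by simp only [g, dif_pos S.2])
    obtain ⟨r⟩ := hG.nonempty
    have := upper (G := G) (E := {p : V × V // G.Adj p.1 p.2}) (fun e => e.1.1) (fun e => e.1.2)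
      (fun e => e.2) z z0 r (fun S h1 h2 => by
        have := z1 ⟨S, ne_empty_of_mem h1, h2⟩
        simpa [sum_filter] using this) hε
    filter_upwards [this] with n ⟨N, h1, h2⟩
    refine ⟨N, h1, h2.trans (mul_le_mul_of_nonneg_right ?_ (by positivity))⟩
    simp only [one_mul] at z2
    linarith
  · rcases Nat.eq_zero_or_pos n with rfl | hn
    · simp
    · have n0 : (0 : ℝ) < n := by exact_mod_cast hn
      rw [← le_div_iff₀ n0]
      refine csSup_le ⟨0, 0, by simp⟩ ?_
      rintro s ⟨g, h, h1, h2, h3, rfl⟩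
      exact (le_div_iff₀ n0).2 (P.packing_bound hP g (fun S => (h S).1) h1 h2 h3)

end Pool.Agent.H.MP_bf2f06_lc
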