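import Mathlib

open Finset

namespace Pool.Agent.H.MP_bf2f06_lc

variable {V : Type} [Fintype V] [DecidableEq V]

/-- A static deterministic protocol with `N` one-bit steps on `n`-bit inputs. At step `t` the
player `src t` sends one bit to its neighbour `tgt t`; the bit depends on the sender's input and
on what the sender has seen. At the end every player accepts or rejects. -/
structure Protocol (G : SimpleGraph V) (n N : ℕ) where
  src : Fin N → V
  tgt : Fin N → V
  adj : ∀ t, G.Adj (src t) (tgt t)
  msg : Fin N → (Fin n → Bool) → (Fin N → Option Bool) → Bool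
  acc : V → (Fin n → Bool) → (Fin N → Option Bool) → Bool

variable {G : SimpleGraph V} {n N : ℕ}

/-- What player `v` has seen before time `t`: the bits it sent or received at earlier steps. -/
def Protocol.view (P : Protocol G n N) (h : Fin N → Bool) (v : V) (t : ℕ) :
    Fin N → Option Bool :=
  fun s => if (s : ℕ) < t ∧ (P.src s = v ∨ P.tgt s = v) then some (h s) else none

/-- `h` is the sequence of bits sent when the inputs are `x`. -/
def Protocol.IsRun (P : Protocol G n N) (x : V → Fin n → Bool) (h : Fin N → Bool) : Prop :=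
  ∀ t, h t = P.msg t (x (P.src t)) (P.view h (P.src t) t)

/-- All players accept exactly when all inputs are equal. -/
def Protocol.Correct (P : Protocol G n N) : Prop :=
  ∀ x h, P.IsRun x h → ((∀ v, P.acc v (x v) (P.view h v N) = true) ↔ ∀ u v, x u = x v)

/-- The least number of bits sent by a correct protocol for `n`-bit inputs. -/
noncomputable def cost (G : SimpleGraph V) (n : ℕ) : ℕ :=
  sInf {N | ∃ P : Protocol G n N, P.Correct}

/-- Every single player outputs whether all inputs are equal. -/
def Protocol.Strong (P : Protocol G n N) : Prop :=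
  ∀ x h, P.IsRun x h → ∀ v, (P.acc v (x v) (P.view h v N) = true ↔ ∀ u w, x u = x w)

/-- The least number of bits sent by a protocol in which every player learns the answer. -/
noncomputable def costAll (G : SimpleGraph V) (n : ℕ) : ℕ :=
  sInf {N | ∃ P : Protocol G n N, P.Strong}

/-- The largest total weight of a fractional packing of cuts; the cut `(S, Sᶜ)` is indexed
by `S`. -/
noncomputable def fc (G : SimpleGraph V) : ℝ :=
  sSup {s | ∃ g : Finset V → ℝ, (∀ S, 0 ≤ g S ∧ g S ≤ 1) ∧ g ∅ = 0 ∧ g univ = 0 ∧
    (∀ a b, G.Adj a b → ∑ S with (a ∈ S ↔ b ∉ S), g S ≤ 1) ∧ s = ∑ S, g S}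

omit [Fintype V] in
lemma Protocol.exists_run (P : Protocol G n N) (x : V → Fin n → Bool) : ∃ h, P.IsRun x h := by
  have key : ∀ k : ℕ, ∃ h : Fin N → Bool, ∀ t : Fin N, (t : ℕ) < k →
      h t = P.msg t (x (P.src t)) (P.view h (P.src t) t) := by
    intro k
    induction k with
    | zero => exact ⟨fun _ => false, by simp⟩
    | succ k ih =>
      obtain ⟨h, hh⟩ := ih
      refine ⟨fun t => if (t : ℕ) < k then h t else P.msg t (x (P.src t)) (P.view h (P.src t) t),
        fun t ht => ?_⟩
      have hv : P.view (fun t => if (t : ℕ) < k then h t else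
          P.msg t (x (P.src t)) (P.view h (P.src t) t)) (P.src t) t = P.view h (P.src t) t := by
        funext s
        unfold Protocol.view
        split_ifs with h1
        · have : (s : ℕ) < k := by omega
          simp only [this, if_true]
        · rfl
      rw [hv]
      dsimp only
      split_ifs with h1
      · exact hh t h1
      · rfl
  obtain ⟨h, hh⟩ := key N
  exact ⟨h, fun t => hh t t.2⟩

omit [Fintype V] in
lemma Protocol.cut_bound (P : Protocol G n N) (hP : P.Correct) (S : Finset V) {a b : V}
    (ha : a ∈ S) (hb : b ∉ S) :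
    n ≤ (univ.filter fun t => (P.src t ∈ S ↔ P.tgt t ∉ S)).card := by
  choose H hH using fun x : Fin n → Bool => P.exists_run fun _ => x
  have hinj : Function.Injective fun (x : Fin n → Bool)
      (t : {t // (P.src t ∈ S ↔ P.tgt t ∉ S)}) => H x t := by
    intro x y hxy
    have hc : ∀ t, (P.src t ∈ S ↔ P.tgt t ∉ S) → H x t = H y t :=
      fun t ht => congrFun hxy ⟨t, ht⟩
    let z : V → Fin n → Bool := fun v => if v ∈ S then x else y
    let h : Fin N → Bool := fun s => if P.src s ∈ S then H x s else H y s
    have hv : ∀ v t, P.view h v t = P.view (H (z v)) v t := by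
      intro v t
      funext s
      unfold Protocol.view
      split_ifs with h1
      · simp only [h, z]
        congr 1
        split_ifs with h2 h3 h3
        · rfl
        · rcases h1.2 with e | e
          · exact absurd (e ▸ h2) h3
          · exact hc s (by simp [h2, e, h3])
        · rcases h1.2 with e | e
          · exact absurd (e ▸ h3) h2
          · exact (hc s (by simp [h2, e, h3])).symm
        · rfl
      · rfl
    have hrun : P.IsRun z h := by
      intro t
      rw [hv, ← hH (z (P.src t)) t]
      simp only [h, z]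
      split_ifs <;> rfl
    have := (hP z h hrun).1 (fun v => by
      rw [hv]
      exact (hP _ _ (hH (z v))).2 (fun _ _ => rfl) v) a b
    simpa [z, ha, hb] using this
  have := Fintype.card_le_of_injective _ hinj
  simp only [Fintype.card_fun, Fintype.card_bool, Fintype.card_fin, Fintype.card_subtype] at this
  exact (Nat.pow_le_pow_iff_right (by norm_num)).1 this

lemma Protocol.packing_bound (P : Protocol G n N) (hP : P.Correct) (g : Finset V → ℝ)
    (h0 : ∀ S, 0 ≤ g S) (h1 : g ∅ = 0) (h2 : g univ = 0)
    (h3 : ∀ a b, G.Adj a b → ∑ S with (a ∈ S ↔ b ∉ S), g S ≤ 1) : (∑ S, g S) * n ≤ N := by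
  calc (∑ S, g S) * n = ∑ S, g S * n := Finset.sum_mul ..
    _ ≤ ∑ S, ∑ t : Fin N, if (P.src t ∈ S ↔ P.tgt t ∉ S) then g S else 0 := by
      refine sum_le_sum fun S _ => ?_
      by_cases e1 : S = ∅
      · simp [e1, h1]
      by_cases e2 : S = univ
      · simp [e2, h2]
      obtain ⟨a, ha⟩ := nonempty_iff_ne_empty.2 e1
      obtain ⟨b, hb⟩ : ∃ b, b ∉ S := by
        by_contra h
        push Not at h
        exact e2 (eq_univ_iff_forall.2 h)
      have := P.cut_bound hP S ha hb
      rw [← sum_filter, sum_const, nsmul_eq_mul, mul_comm]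
      exact mul_le_mul_of_nonneg_right (by exact_mod_cast this) (h0 S)
    _ = ∑ t : Fin N, ∑ S with (P.src t ∈ S ↔ P.tgt t ∉ S), g S := by
      rw [sum_comm]
      simp only [sum_filter]
    _ ≤ ∑ _t : Fin N, (1 : ℝ) := sum_le_sum fun t _ => h3 _ _ (P.adj t)
    _ = N := by simp

omit [Fintype V] in
lemma Protocol.Strong.correct [Nonempty V] {P : Protocol G n N} (hP : P.Strong) : P.Correct :=
  fun x h hr => ⟨fun ha => (hP x h hr (Classical.arbitrary V)).1 (ha _),
    fun he v => (hP x h hr v).2 he⟩

lemma strengthen (hG : G.Connected) : ∃ M : ℕ, ∀ n N (P : Protocol G n N), P.Correct →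
    ∃ Q : Protocol G n (N + M), Q.Strong := by
  classical
  let m := Fintype.card {p : V × V // G.Adj p.1 p.2}
  let D : {p : V × V // G.Adj p.1 p.2} ≃ Fin m := Fintype.equivFin _
  let W : ∀ u v, G.Walk u v := fun u v => (hG.preconnected u v).some
  let R := ∑ p : V × V, (W p.1 p.2).length
  refine ⟨R * m, fun n N P hP => ?_⟩
  let dt : Fin (R * m) → {p : V × V // G.Adj p.1 p.2} := fun k => D.symm k.modNat
  let flag : V → (Fin n → Bool) → (Fin (N + R * m) → Option Bool) → Bool := fun v x w =>
    P.acc v x (fun s => w (Fin.castAdd _ s)) && decide (∀ k, w (Fin.natAdd N k) ≠ some false)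
  let Q : Protocol G n (N + R * m) :=
    { src := Fin.addCases P.src fun k => (dt k).1.1
      tgt := Fin.addCases P.tgt fun k => (dt k).1.2
      adj := fun t => by
        refine Fin.addCases (fun s => ?_) (fun k => ?_) t
        · simpa using P.adj s
        · simpa using (dt k).2
      msg := Fin.addCases (fun s x w => P.msg s x fun s' => w (Fin.castAdd _ s'))
        fun k x w => flag (dt k).1.1 x w
      acc := flag }
  refine ⟨Q, fun x h hrun => ?_⟩
  let h0 : Fin N → Bool := fun s => h (Fin.castAdd _ s)
  have hv : ∀ v t, (fun s => Q.view h v t (Fin.castAdd _ s)) = P.view h0 v t := by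
    intro v t
    funext s
    simp [Protocol.view, Q, h0]
  have hv' : ∀ v t, N ≤ t → P.view h0 v t = P.view h0 v N := by
    intro v t ht
    funext s
    have := s.2
    simp only [Protocol.view, this, show (s : ℕ) < t by omega]
  have hr0 : P.IsRun x h0 := by
    intro s
    have := hrun (Fin.castAdd _ s)
    simp only [Q, Fin.addCases_left] at this
    simp only [h0]
    rw [this, ← hv]
    rfl
  have hflag : ∀ v t, flag v (x v) (Q.view h v (N + t)) = true ↔
      P.acc v (x v) (P.view h0 v N) = true ∧ ∀ k : Fin (R * m), (k : ℕ) < t →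
        ((dt k).1.1 = v ∨ (dt k).1.2 = v) → h (Fin.natAdd N k) = true := by
    intro v t
    simp only [flag, Bool.and_eq_true, decide_eq_true_eq]
    rw [hv, hv' v _ (Nat.le_add_right _ _)]
    refine and_congr_right fun _ => forall_congr' fun k => ?_
    simp [Protocol.view, Q]
  have hk : ∀ k : Fin (R * m), h (Fin.natAdd N k) =
      flag (dt k).1.1 (x (dt k).1.1) (Q.view h (dt k).1.1 (N + k)) := by
    intro k
    have := hrun (Fin.natAdd N k)
    simpa [Q] using this
  intro v
  change flag v (x v) (Q.view h v (N + R * m)) = true ↔ _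
  rw [← hP x h0 hr0]
  constructor
  · intro hf u
    have key : ∀ (a : V) (p : G.Walk a v) (ρ : ℕ), ρ + p.length ≤ R →
        flag a (x a) (Q.view h a (N + ρ * m)) = true := by
      intro a p
      induction p with
      | nil =>
        intro ρ hρ
        rw [hflag] at hf ⊢
        exact ⟨hf.1, fun k _ => hf.2 k k.2⟩
      | @cons a b c hab p ih =>
        intro ρ hρ
        rw [SimpleGraph.Walk.length_cons] at hρ
        have h1 := (hflag _ _).1 (ih hf (ρ + 1) (by omega))
        have hj := (D ⟨(a, b), hab⟩).2
        have h2 : (ρ + 1) * m ≤ R * m := Nat.mul_le_mul_right _ (by omega)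
        rw [add_mul, one_mul] at h2
        let k : Fin (R * m) := ⟨ρ * m + D ⟨(a, b), hab⟩, by omega⟩
        have h3 : dt k = ⟨(a, b), hab⟩ := by
          simp only [dt, Equiv.symm_apply_eq]
          ext
          simp [k, Fin.modNat, Nat.mod_eq_of_lt hj]
        have h4 := h1.2 k (by rw [add_mul, one_mul]; simp only [k]; omega) (by simp [h3])
        rw [hk, h3, hflag] at h4
        exact (hflag _ _).2 ⟨h4.1, fun k' hk' => h4.2 k' (by simp only [k]; omega)⟩
    exact ((hflag _ _).1 (key u (W u v) 0 (by
      rw [zero_add]
      exact single_le_sum (f := fun p : V × V => (W p.1 p.2).length) (fun _ _ => Nat.zero_le _)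
        (mem_univ (u, v))))).1
  · intro ha
    have key : ∀ t (k : Fin (R * m)), (k : ℕ) < t → h (Fin.natAdd N k) = true := by
      intro t
      induction t with
      | zero => simp
      | succ t ih =>
        intro k hk'
        rw [hk, hflag]
        exact ⟨ha _, fun k' h' _ => ih k' (by omega)⟩
    exact (hflag _ _).2 ⟨ha v, fun k h' _ => key _ k h'⟩

end Pool.Agent.H.MP_bf2f06_lc
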