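import Pool.Agent.H.MP_bf2f06_lc.Model

open Finset Filter Topology

set_option linter.unusedSectionVars false

namespace Pool.Agent.H.MP_bf2f06_lc

variable {V : Type} [Fintype V] [DecidableEq V] {G : SimpleGraph V}

lemma exists_enc (d D M n : ℕ) (h : ((D * M ^ 2 + 1) ^ d) ^ d * 2 ^ n ≤ (M ^ D) ^ d) :
    ∃ enc : (Fin n → Bool) → Fin d → Fin D → Fin M, Function.Injective enc ∧
      ∀ x y i i', ∑ j, (enc x i j : ℕ) * enc x i' j = ∑ j, (enc y i j : ℕ) * enc y i' j := by
  let gram : (Fin d → Fin D → Fin M) → Fin d → Fin d → ℕ :=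
    fun X i i' => ∑ j, (X i j : ℕ) * X i' j
  obtain ⟨Γ, -, hΓ⟩ := exists_le_card_fiber_of_mul_le_card_of_maps_to (f := gram) (s := univ)
    (t := Fintype.piFinset fun _ => Fintype.piFinset fun _ => range (D * M ^ 2 + 1)) (n := 2 ^ n)
    (fun X _ => by
      simp only [Fintype.mem_piFinset, mem_range, gram]
      intro i i'
      have : ∑ j, (X i j : ℕ) * X i' j ≤ ∑ _j : Fin D, M ^ 2 := sum_le_sum fun j _ => by
        rw [sq]
        exact Nat.mul_le_mul (X i j).2.le (X i' j).2.le
      simp only [sum_const, card_univ, Fintype.card_fin, smul_eq_mul] at this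
      omega)
    ⟨fun _ _ => 0, by simp⟩ (by simpa using h)
  have hc : Fintype.card (Fin n → Bool) ≤ Fintype.card {X // gram X = Γ} := by
    rw [Fintype.card_subtype]
    simpa using hΓ
  obtain ⟨e⟩ := Function.Embedding.nonempty_of_card_le hc
  refine ⟨fun x => (e x).1, fun x y hxy => e.injective (Subtype.ext hxy), fun x y i i' => ?_⟩
  exact congrFun (congrFun ((e x).2.trans (e y).2.symm) i) i'

lemma proto_fin {A : Type} [Fintype A] (src tgt : A → V) (hadj : ∀ a, G.Adj (src a) (tgt a))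
    {d : ℕ} (l : A → Fin d → ℤ)
    (hrig : ∀ (D : ℕ) (X : V → Fin d → Fin D → ℤ),
      (∀ u v i i', ∑ j, X u i j * X u i' j = ∑ j, X v i j * X v i' j) →
      (∀ a j, ∑ i, l a i * X (src a) i j = ∑ i, l a i * X (tgt a) i j) → ∀ u v, X u = X v)
    (K κ : ℕ) (hK : ∀ a, ∑ i, |l a i| ≤ K) (hκ : 2 * K < 2 ^ κ) (s D n : ℕ)
    (h : ((D * (2 ^ s) ^ 2 + 1) ^ d) ^ d * 2 ^ n ≤ ((2 ^ s) ^ D) ^ d) :
    ∃ P : Protocol G n (Fintype.card A * (D * (s + κ))), P.Correct := by
  obtain ⟨enc, hinj, hgram⟩ := exists_enc d D (2 ^ s) n h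
  let e : A × Fin D × Fin (s + κ) ≃ Fin (Fintype.card A * (D * (s + κ))) :=
    Fintype.equivFinOfCardEq (by simp)
  let lab : A → Fin D → (Fin n → Bool) → ℤ := fun a j x => ∑ i, l a i * ((enc x i j : ℕ) : ℤ)
  have hlab : ∀ a j x, |lab a j x| ≤ K * 2 ^ s := by
    intro a j x
    refine (abs_sum_le_sum_abs _ _).trans ?_
    refine le_trans (sum_le_sum (g := fun i => |l a i| * 2 ^ s) fun i _ => ?_) ?_
    · rw [abs_mul, Nat.abs_cast]
      exact mul_le_mul_of_nonneg_left (by exact_mod_cast (enc x i j).2.le) (abs_nonneg _)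
    · rw [← sum_mul]
      exact mul_le_mul_of_nonneg_right (hK a) (by positivity)
  let code : A → Fin D → (Fin n → Bool) → ℕ := fun a j x => (lab a j x + K * 2 ^ s).toNat
  have hcode : ∀ a j x, (code a j x : ℤ) = lab a j x + K * 2 ^ s := fun a j x =>
    Int.toNat_of_nonneg (by linarith [(abs_le.1 (hlab a j x)).1])
  have hlt : ∀ a j x, code a j x < 2 ^ (s + κ) := by
    intro a j x
    have h1 := (abs_le.1 (hlab a j x)).2
    have h2 : (2 * K : ℤ) < 2 ^ κ := by exact_mod_cast hκ
    have h3 : (code a j x : ℤ) < 2 ^ (s + κ) := by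
      rw [hcode, pow_add]
      have : (0 : ℤ) < 2 ^ s := by positivity
      nlinarith
    exact_mod_cast h3
  let bit : Fin (Fintype.card A * (D * (s + κ))) → (Fin n → Bool) → Bool :=
    fun t x => (code (e.symm t).1 (e.symm t).2.1 x).testBit (e.symm t).2.2
  refine ⟨⟨fun t => src (e.symm t).1, fun t => tgt (e.symm t).1, fun t => hadj _,
    fun t x _ => bit t x,
    fun v x w => decide (∀ t, tgt (e.symm t).1 = v → w t = some (bit t x))⟩, ?_⟩
  intro x hh hrun
  simp only [Protocol.IsRun] at hrun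
  simp only [decide_eq_true_eq, Protocol.view, Fin.is_lt, true_and]
  constructor
  · intro hacc u v
    apply hinj
    have := hrig D (fun v i j => ((enc (x v) i j : ℕ) : ℤ))
      (fun u v i i' => by exact_mod_cast hgram (x u) (x v) i i') (fun a j => by
        have h1 : code a j (x (src a)) = code a j (x (tgt a)) := by
          refine Nat.eq_of_testBit_eq fun k => ?_
          by_cases hk : k < s + κ
          · have := hacc (tgt a) (e (a, j, ⟨k, hk⟩)) (by simp)
            rw [if_pos (Or.inr (by simp)), hrun] at this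
            simpa [bit] using this
          · rw [Nat.testBit_lt_two_pow ((hlt _ _ _).trans_le
              (Nat.pow_le_pow_right (by norm_num) (not_lt.1 hk))),
              Nat.testBit_lt_two_pow ((hlt _ _ _).trans_le
              (Nat.pow_le_pow_right (by norm_num) (not_lt.1 hk)))]
        have h2 := hcode a j (x (src a))
        rw [h1, hcode] at h2
        exact (add_right_cancel h2).symm) u v
    funext i j
    have h3 := congrFun (congrFun this i) j
    exact Fin.ext (by exact_mod_cast h3)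
  · intro heq v t ht
    rw [if_pos (Or.inr ht), hrun, heq _ v]

lemma proto {A : Type} [Fintype A] (src tgt : A → V) (hadj : ∀ a, G.Adj (src a) (tgt a))
    {d : ℕ} (hd : 0 < d) (l : A → Fin d → ℤ)
    (hrig : ∀ (D : ℕ) (X : V → Fin d → Fin D → ℤ),
      (∀ u v i i', ∑ j, X u i j * X u i' j = ∑ j, X v i j * X v i' j) →
      (∀ a j, ∑ i, l a i * X (src a) i j = ∑ i, l a i * X (tgt a) i j) → ∀ u v, X u = X v)
    {ε : ℝ} (hε : 0 < ε) : ∀ᶠ n : ℕ in atTop, ∃ N : ℕ, (∃ P : Protocol G n N, P.Correct) ∧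
      (N : ℝ) ≤ (Fintype.card A / d + ε) * n := by
  let K : ℕ := (∑ a, ∑ i, |l a i|).toNat
  have hK : ∀ a, ∑ i, |l a i| ≤ K := fun a =>
    (single_le_sum (f := fun a => ∑ i, |l a i|) (fun a _ => sum_nonneg fun i _ => abs_nonneg _)
      (mem_univ a)).trans (Int.self_le_toNat _)
  set κ := 2 * K with hκ
  set m : ℝ := (Fintype.card A : ℝ) with hm
  have m0 : 0 ≤ m := by positivity
  obtain ⟨σ, hσ⟩ := exists_nat_gt (2 * m * (1 + κ) / ε)
  have σ0 : (0 : ℝ) < σ := lt_of_le_of_lt (by positivity) hσ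
  have σ0' : 0 < σ := by exact_mod_cast σ0
  have d0 : (1 : ℝ) ≤ d := by exact_mod_cast hd
  have hlim := tendsto_pow_const_div_const_pow_of_one_lt d (show (1 : ℝ) < 2 by norm_num)
  have hpos : (0 : ℝ) < 1 / ((2 ^ (σ + 1)) ^ 2 + 1) ^ d := by positivity
  have hD : Tendsto (fun n : ℕ => n / (d * σ) + 1) atTop atTop :=
    (tendsto_add_atTop_nat 1).comp (Nat.tendsto_div_const_atTop (by positivity))
  filter_upwards [hD.eventually (hlim.eventually (gt_mem_nhds hpos)),
    tendsto_natCast_atTop_atTop.eventually (eventually_ge_atTop (2 * m * (σ + 1 + κ) / ε))]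
    with n h1 h2
  set D := n / (d * σ) + 1 with hDdef
  have hD1 : 1 ≤ D := Nat.le_add_left 1 _
  have a1 : (D * (2 ^ (σ + 1)) ^ 2 + 1) ^ d ≤ 2 ^ D := by
    rw [div_lt_div_iff₀ (by positivity) (by positivity), one_mul, ← mul_pow] at h1
    have h3 : (D * ((2 ^ (σ + 1)) ^ 2 + 1)) ^ d < 2 ^ D := by exact_mod_cast h1
    exact (Nat.pow_le_pow_left (by nlinarith) d).trans h3.le
  have a2 : n ≤ σ * D * d := by
    have := Nat.lt_div_mul_add (a := n) (b := d * σ) (by positivity)
    rw [hDdef]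
    nlinarith
  refine ⟨_, proto_fin src tgt hadj l hrig K κ hK Nat.lt_two_pow_self (σ + 1) D n ?_, ?_⟩
  · calc _ ≤ (2 ^ D) ^ d * 2 ^ (σ * D * d) :=
          Nat.mul_le_mul (Nat.pow_le_pow_left a1 d) (Nat.pow_le_pow_right (by norm_num) a2)
      _ = _ := by
          simp only [← pow_mul, ← pow_add]
          congr 1
          ring
  · have a3 : (D : ℝ) ≤ n / (d * σ) + 1 := by
      rw [hDdef]
      push_cast
      have := Nat.cast_div_le (α := ℝ) (m := n) (n := d * σ)
      push_cast at this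
      linarith
    have n0 : (0 : ℝ) ≤ n := by positivity
    rw [div_le_iff₀ hε] at h2
    rw [div_lt_iff₀ hε] at hσ
    have a4 : m * (σ + 1 + κ) / (d * σ) ≤ m / d + ε / 2 := by
      have e : m * (σ + 1 + κ) / (d * σ) = m / d + m * (1 + κ) / (d * σ) := by
        field_simp
        ring
      rw [e, add_le_add_iff_left, div_le_iff₀ (by positivity)]
      nlinarith [mul_le_mul_of_nonneg_left d0 (mul_pos σ0 hε).le]
    push_cast
    calc m * (D * (σ + 1 + κ)) ≤ m * ((n / (d * σ) + 1) * (σ + 1 + κ)) := by gcongr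
      _ = m * (σ + 1 + κ) / (d * σ) * n + m * (σ + 1 + κ) := by ring
      _ ≤ (m / d + ε / 2) * n + ε / 2 * n := by
          have := mul_le_mul_of_nonneg_right a4 n0
          linarith
      _ = _ := by ring

end Pool.Agent.H.MP_bf2f06_lc
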